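import Mathlib

/-! # MP_1f562f_co: the Erdős–Sauer bound for one `r`-graph -/

set_option autoImplicit false

namespace ESU
open Finset

/-- The edge set `H` has a partition into single edges and full edge sets of copies of `K_p^r`
whose number of parts is at most the number of edges of some `K_p^r`-free `r`-graph on `n`
vertices. -/
def Bound (n r p : ℕ) (H : Finset (Finset (Fin n))) : Prop :=
  ∃ P : Finpartition H,
    (∀ B ∈ P.parts, B.card = 1 ∨
      ∃ S : Finset (Fin n), S.card = p ∧ B = S.powersetCard r) ∧
    ∃ G : Finset (Finset (Fin n)),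
      (∀ e ∈ G, e.card = r) ∧
      (∀ S : Finset (Fin n), S.card = p → ¬ S.powersetCard r ⊆ G) ∧
      P.parts.card ≤ G.card

end ESU
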