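import Pool.Agent.Lib.MP_1f562fU.Defs

/-! # leaf Hit: if every two copies share an edge, `C(p,r) - 1` edges meet all copies -/

set_option autoImplicit false

namespace ESU
open Finset

private theorem hit_L {n r : ℕ} (hr : 2 ≤ r) (A e f : Finset (Fin n)) (hA : r + 1 ≤ A.card) :
    ∃ g : Finset (Fin n), g.card = r ∧ g ⊆ A ∧ g ≠ e ∧ g ≠ f := by
  have h1 : ({e, f} : Finset (Finset (Fin n))).card < (A.powersetCard r).card := by
    rw [card_powersetCard]
    have h2 : (r + 1).choose r ≤ A.card.choose r := Nat.choose_le_choose r hA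
    have h3 : (r + 1).choose r = r + 1 := Nat.choose_succ_self_right r
    have h4 : ({e, f} : Finset (Finset (Fin n))).card ≤ 2 := card_le_two
    omega
  obtain ⟨g, hg, hg'⟩ := exists_mem_notMem_of_card_lt_card h1
  rw [mem_powersetCard] at hg
  simp only [mem_insert, mem_singleton, not_or] at hg'
  exact ⟨g, hg.2, hg.1, hg'.1, hg'.2⟩

private theorem hit_A {n r : ℕ} (hr : 2 ≤ r) {S T e f : Finset (Fin n)}
    (hsh : ∃ x : Finset (Fin n), x.card = r ∧ x ⊆ S ∧ x ⊆ T)
    (h : ∀ x : Finset (Fin n), x.card = r → x ⊆ S → x ≠ e → x ≠ f → ¬ x ⊆ T) :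
    T ∩ S = e ∨ T ∩ S = f := by
  have h1 : (T ∩ S).card ≤ r := by
    by_contra hc
    obtain ⟨g, g1, g2, g3, g4⟩ := hit_L hr (T ∩ S) e f (by omega)
    exact h g g1 (g2.trans inter_subset_right) g3 g4 (g2.trans inter_subset_left)
  obtain ⟨x, x1, x2, x3⟩ := hsh
  have h2 : x = T ∩ S := eq_of_subset_of_card_le (subset_inter x3 x2) (by omega)
  by_contra hc
  rw [not_or] at hc
  exact h x x1 x2 (by rw [h2]; exact hc.1) (by rw [h2]; exact hc.2) x3

private theorem hit_B {n r p : ℕ} {S T T0 e f : Finset (Fin n)}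
    (hT : T.card = p) (hT0 : T0.card = p) (he : e.card = r) (hf : f.card = r)
    (hef : (e ∩ f).card + p = 2 * r) (hTf : T ∩ S = f) (hTe : T0 ∩ S = e)
    (hsh : ∃ x : Finset (Fin n), x.card = r ∧ x ⊆ T ∧ x ⊆ T0) : T \ S = T0 \ S := by
  obtain ⟨x, x1, x2, x3⟩ := hsh
  have h1 : x ⊆ (e ∩ f) ∪ ((T \ S) ∩ (T0 \ S)) := by
    intro a ha
    by_cases haS : a ∈ S
    · refine mem_union_left _ (mem_inter.2 ⟨?_, ?_⟩)
      · rw [← hTe]; exact mem_inter.2 ⟨x3 ha, haS⟩
      · rw [← hTf]; exact mem_inter.2 ⟨x2 ha, haS⟩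
    · exact mem_union_right _ (mem_inter.2 ⟨mem_sdiff.2 ⟨x2 ha, haS⟩, mem_sdiff.2 ⟨x3 ha, haS⟩⟩)
  have h2 := (card_le_card h1).trans (card_union_le _ _)
  have h3 : (T \ S).card + (T ∩ S).card = T.card := card_sdiff_add_card_inter T S
  have h4 : (T0 \ S).card + (T0 ∩ S).card = T0.card := card_sdiff_add_card_inter T0 S
  rw [hTf] at h3
  rw [hTe] at h4
  have h5 : (T \ S) ∩ (T0 \ S) = T \ S :=
    eq_of_subset_of_card_le inter_subset_left (by omega)
  have h6 : (T \ S) ∩ (T0 \ S) = T0 \ S :=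
    eq_of_subset_of_card_le inter_subset_right (by omega)
  rw [← h5, h6]

theorem exists_hit {n r p : ℕ} (hr : 2 ≤ r) (hrp : r < p) (hp : p ≤ 2 * r)
    (H : Finset (Finset (Fin n)))
    (hsh : ∀ S S' : Finset (Fin n), S.card = p → S'.card = p → S.powersetCard r ⊆ H →
      S'.powersetCard r ⊆ H → ∃ e : Finset (Fin n), e.card = r ∧ e ⊆ S ∧ e ⊆ S') :
    ∃ D ⊆ H, D.card + 1 ≤ p.choose r ∧
      ∀ S : Finset (Fin n), S.card = p → S.powersetCard r ⊆ H → ∃ e ∈ D, e ⊆ S := by
  classical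
  by_cases h0 : ∃ S : Finset (Fin n), S.card = p ∧ S.powersetCard r ⊆ H
  swap
  · push Not at h0
    refine ⟨∅, empty_subset _, ?_, fun S hS hSH => absurd hSH (h0 S hS)⟩
    have h3 := Nat.choose_pos hrp.le
    rw [card_empty]
    omega
  obtain ⟨S, hS, hSH⟩ := h0
  have hk : (S.powersetCard r).card = p.choose r := by rw [card_powersetCard, hS]
  by_cases h1 : ∃ e ∈ S.powersetCard r, ∀ T : Finset (Fin n), T.card = p →
      T.powersetCard r ⊆ H → ∃ x ∈ (S.powersetCard r).erase e, x ⊆ T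
  · obtain ⟨e, he, h⟩ := h1
    refine ⟨(S.powersetCard r).erase e, (erase_subset _ _).trans hSH, ?_, h⟩
    rw [card_erase_add_one he, hk]
  push Not at h1
  -- for every `r`-subset `e` of `S` there is a copy meeting `S` exactly in `e`
  have h2 : ∀ e : Finset (Fin n), e.card = r → e ⊆ S → ∃ T : Finset (Fin n), T.card = p ∧
      T.powersetCard r ⊆ H ∧ T ∩ S = e := by
    intro e he heS
    obtain ⟨T, hT, hTH, h⟩ := h1 e (mem_powersetCard.2 ⟨heS, he⟩)
    refine ⟨T, hT, hTH, ?_⟩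
    have h3 := hit_A (e := e) (f := e) hr (hsh S T hS hT hSH hTH) fun x x1 x2 x3 _ =>
      h x (mem_erase.2 ⟨x3, mem_powersetCard.2 ⟨x2, x1⟩⟩)
    rcases h3 with h3 | h3 <;> exact h3
  obtain ⟨e, heS, he⟩ := exists_subset_card_eq (s := S) (n := r) (by omega)
  have hsd : (S \ e).card + r = p := by
    have h3 : (S \ e).card + e.card = S.card := card_sdiff_add_card_eq_card heS
    rw [he, hS] at h3
    exact h3
  obtain ⟨f, hf1, hfS, hf⟩ := exists_subsuperset_card_eq (s := S \ e) (t := S) (n := r)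
    sdiff_subset (by omega) (by omega)
  have hun : e ∪ f = S := by
    refine Subset.antisymm (union_subset heS hfS) fun a ha => ?_
    by_cases hae : a ∈ e
    · exact mem_union_left _ hae
    · exact mem_union_right _ (hf1 (mem_sdiff.2 ⟨ha, hae⟩))
  have hne : e ≠ f := by
    intro h
    rw [← h, union_self] at hun
    rw [hun, hS] at he
    omega
  have hef : (e ∩ f).card + p = 2 * r := by
    have h3 := card_union_add_card_inter e f
    rw [hun, hS, he, hf] at h3
    omega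
  have hfe : (f ∩ e).card + p = 2 * r := by rw [inter_comm]; exact hef
  obtain ⟨T0, hT0, hT0H, hT0e⟩ := h2 e he heS
  obtain ⟨T1, hT1, hT1H, hT1f⟩ := h2 f hf hfS
  have hW1 : T1 \ S = T0 \ S := hit_B hT1 hT0 he hf hef hT1f hT0e
    (hsh T1 T0 hT1 hT0 hT1H hT0H)
  have hWf : ∀ T : Finset (Fin n), T.card = p → T.powersetCard r ⊆ H → T ∩ S = f →
      T \ S = T0 \ S := fun T hT hTH h => hit_B hT hT0 he hf hef h hT0e
    (hsh T T0 hT hT0 hTH hT0H)
  have hWe : ∀ T : Finset (Fin n), T.card = p → T.powersetCard r ⊆ H → T ∩ S = e →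
      T \ S = T0 \ S := fun T hT hTH h => by
    rw [← hW1]
    exact hit_B hT hT1 hf he hfe h hT1f (hsh T T1 hT hT1 hTH hT1H)
  have hgc : ((e ∩ f) ∪ (T0 \ S)).card = r := by
    have hd : Disjoint (e ∩ f) (T0 \ S) := by
      rw [disjoint_left]
      intro a ha ha'
      exact (mem_sdiff.1 ha').2 (heS (mem_inter.1 ha).1)
    rw [card_union_of_disjoint hd]
    have h4 : (T0 \ S).card + (T0 ∩ S).card = T0.card := card_sdiff_add_card_inter T0 S
    rw [hT0e] at h4
    omega
  have hgT : (e ∩ f) ∪ (T0 \ S) ⊆ T0 := by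
    refine union_subset ?_ sdiff_subset
    refine inter_subset_left.trans ?_
    rw [← hT0e]
    exact inter_subset_left
  have hgH : (e ∩ f) ∪ (T0 \ S) ∈ H := hT0H (mem_powersetCard.2 ⟨hgT, hgc⟩)
  have heP : e ∈ S.powersetCard r := mem_powersetCard.2 ⟨heS, he⟩
  have hfP : f ∈ (S.powersetCard r).erase e := mem_erase.2 ⟨hne.symm, mem_powersetCard.2 ⟨hfS, hf⟩⟩
  refine ⟨insert ((e ∩ f) ∪ (T0 \ S)) (((S.powersetCard r).erase e).erase f), ?_, ?_, ?_⟩
  · refine insert_subset hgH ?_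
    exact (erase_subset _ _).trans ((erase_subset _ _).trans hSH)
  · have h3 := card_insert_le ((e ∩ f) ∪ (T0 \ S)) (((S.powersetCard r).erase e).erase f)
    have h4 := card_erase_add_one heP
    have h5 := card_erase_add_one hfP
    omega
  · intro T hT hTH
    by_cases hx : ∃ x : Finset (Fin n), x.card = r ∧ x ⊆ S ∧ x ≠ e ∧ x ≠ f ∧ x ⊆ T
    · obtain ⟨x, x1, x2, x3, x4, x5⟩ := hx
      exact ⟨x, mem_insert_of_mem (mem_erase.2 ⟨x4, mem_erase.2 ⟨x3, mem_powersetCard.2
        ⟨x2, x1⟩⟩⟩), x5⟩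
    · refine ⟨_, mem_insert_self _ _, ?_⟩
      have h3 := hit_A (e := e) (f := f) hr (hsh S T hS hT hSH hTH) fun x x1 x2 x3 x4 x5 =>
        hx ⟨x, x1, x2, x3, x4, x5⟩
      rcases h3 with h3 | h3
      · rw [← hWe T hT hTH h3]
        refine union_subset ?_ sdiff_subset
        refine inter_subset_left.trans ?_
        rw [← h3]
        exact inter_subset_left
      · rw [← hWf T hT hTH h3]
        refine union_subset ?_ sdiff_subset
        refine inter_subset_right.trans ?_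
        rw [← h3]
        exact inter_subset_left

end ESU
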