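import Pool.Agent.Lib.MP_1f562fU.Defs

/-! # leaf Part2: a partition with two edge-disjoint copies -/

set_option autoImplicit false

namespace ESU
open Finset

theorem exists_part2 {n r p : ℕ} (hr : 2 ≤ r) (hrp : r < p) (H : Finset (Finset (Fin n)))
    {S S' : Finset (Fin n)} (hS : S.card = p) (hS' : S'.card = p) (hSH : S.powersetCard r ⊆ H)
    (hSH' : S'.powersetCard r ⊆ H)
    (hd : ¬ ∃ e : Finset (Fin n), e.card = r ∧ e ⊆ S ∧ e ⊆ S') :
    ∃ P : Finpartition H,
      (∀ B ∈ P.parts, B.card = 1 ∨
        ∃ S : Finset (Fin n), S.card = p ∧ B = S.powersetCard r) ∧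
      P.parts.card + 2 * p.choose r = H.card + 2 := by
  classical
  have hne : S.powersetCard r ≠ ⊥ := by
    rw [Finset.bot_eq_empty, ← Finset.nonempty_iff_ne_empty]
    exact Finset.powersetCard_nonempty.2 (by omega)
  have hne' : S'.powersetCard r ≠ ⊥ := by
    rw [Finset.bot_eq_empty, ← Finset.nonempty_iff_ne_empty]
    exact Finset.powersetCard_nonempty.2 (by omega)
  have hdis : Disjoint (S.powersetCard r) (S'.powersetCard r) := by
    rw [Finset.disjoint_left]
    intro e he he'
    rw [Finset.mem_powersetCard] at he he'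
    exact hd ⟨e, he.2, he.1, he'.1⟩
  have hdis2 : Disjoint ((H \ S.powersetCard r) \ S'.powersetCard r ∪ S.powersetCard r)
      (S'.powersetCard r) := by
    rw [Finset.disjoint_union_left]
    exact ⟨sdiff_disjoint, hdis⟩
  have hdis1 : Disjoint ((H \ S.powersetCard r) \ S'.powersetCard r) (S.powersetCard r) :=
    Finset.disjoint_of_subset_left Finset.sdiff_subset sdiff_disjoint
  have hun : ((H \ S.powersetCard r) \ S'.powersetCard r ∪ S.powersetCard r) ∪
      S'.powersetCard r = H := by
    ext e
    simp only [Finset.mem_union, Finset.mem_sdiff]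
    constructor
    · rintro ((h | h) | h)
      · exact h.1.1
      · exact hSH h
      · exact hSH' h
    · intro h
      by_cases h1 : e ∈ S.powersetCard r
      · exact Or.inl (Or.inr h1)
      · by_cases h2 : e ∈ S'.powersetCard r
        · exact Or.inr h2
        · exact Or.inl (Or.inl ⟨⟨h, h1⟩, h2⟩)
  obtain ⟨P, hP1, hP2⟩ : ∃ P : Finpartition H,
      (∀ B ∈ P.parts, (B = S'.powersetCard r ∨ B = S.powersetCard r) ∨ B.card = 1) ∧
        P.parts.card = ((H \ S.powersetCard r) \ S'.powersetCard r).card + 1 + 1 := by
    refine ⟨((⊥ : Finpartition ((H \ S.powersetCard r) \ S'.powersetCard r)).extend hne hdis1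
      rfl).extend hne' hdis2 hun, ?_, ?_⟩
    · intro B hB
      rcases Finset.mem_insert.1 hB with h | h
      · exact Or.inl (Or.inl h)
      · rcases Finset.mem_insert.1 h with h | h
        · exact Or.inl (Or.inr h)
        · obtain ⟨a, _, ha⟩ := Finpartition.mem_bot_iff.1 h
          right
          rw [← ha, Finset.card_singleton]
    · rw [Finpartition.card_extend, Finpartition.card_extend, Finpartition.card_bot]
  refine ⟨P, fun B hB => ?_, ?_⟩
  · rcases hP1 B hB with (h | h) | h
    · exact Or.inr ⟨S', hS', h⟩
    · exact Or.inr ⟨S, hS, h⟩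
    · exact Or.inl h
  · have hc : ((H \ S.powersetCard r) \ S'.powersetCard r).card + p.choose r + p.choose r =
        H.card := by
      have h1 : (((H \ S.powersetCard r) \ S'.powersetCard r ∪ S.powersetCard r) ∪
          S'.powersetCard r).card = H.card := by rw [hun]
      rw [Finset.card_union_of_disjoint hdis2, Finset.card_union_of_disjoint hdis1,
        Finset.card_powersetCard, Finset.card_powersetCard, hS, hS'] at h1
      exact h1
    rw [hP2]
    omega

end ESU
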