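import Pool.Agent.Lib.MP_1f562fU.Hit
import Pool.Agent.Lib.MP_1f562fU.Part2
import Pool.Agent.Lib.MP_1f562fW.Free
import Pool.Agent.Lib.MP_1f562fW.Part

/-! # MP_1f562f_co: `p ≤ 2 r` (helper97): the main theorem -/

set_option autoImplicit false

namespace ESU
open Finset

theorem bound_of_shared {n r p : ℕ} (hr : 2 ≤ r) (hrp : r < p) (hp : p ≤ 2 * r)
    (H : Finset (Finset (Fin n))) (hH : ∀ e ∈ H, e.card = r)
    (hsh : ∀ S S' : Finset (Fin n), S.card = p → S'.card = p → S.powersetCard r ⊆ H →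
      S'.powersetCard r ⊆ H → ∃ e : Finset (Fin n), e.card = r ∧ e ⊆ S ∧ e ⊆ S') :
    Bound n r p H := by
  classical
  by_cases h : ∃ S : Finset (Fin n), S.card = p ∧ S.powersetCard r ⊆ H
  · obtain ⟨S, hS, hSH⟩ := h
    obtain ⟨P, hP, hP'⟩ := ESW.exists_part hr hrp H hS hSH
    obtain ⟨D, hDH, hD, hhit⟩ := exists_hit hr hrp hp H hsh
    refine ⟨P, hP, H \ D, fun e he => hH e (mem_sdiff.1 he).1, fun S' hS' hc => ?_, ?_⟩
    · obtain ⟨e, he, heS⟩ := hhit S' hS' (hc.trans sdiff_subset)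
      have h1 : e ∈ S'.powersetCard r := mem_powersetCard.2 ⟨heS, hH e (hDH he)⟩
      exact (mem_sdiff.1 (hc h1)).2 he
    · rw [card_sdiff_of_subset hDH]
      omega
  · push Not at h
    obtain ⟨P, hP, hP'⟩ := ESW.exists_part_bot (r := r) (p := p) H
    exact ⟨P, hP, H, hH, h, hP'.le⟩

theorem bound_of_free {n r p : ℕ} (hr : 2 ≤ r) (hrp : r < p) (hp : p ≤ 2 * r)
    {G : Finset (Finset (Fin n))} (hG1 : ∀ e ∈ G, e.card = r)
    (hG2 : ∀ S : Finset (Fin n), S.card = p → ¬ S.powersetCard r ⊆ G)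
    (hG3 : n.choose r + 2 ≤ G.card + 2 * p.choose r)
    (H : Finset (Finset (Fin n))) (hH : ∀ e ∈ H, e.card = r) : Bound n r p H := by
  by_cases h : ∀ S S' : Finset (Fin n), S.card = p → S'.card = p → S.powersetCard r ⊆ H →
      S'.powersetCard r ⊆ H → ∃ e : Finset (Fin n), e.card = r ∧ e ⊆ S ∧ e ⊆ S'
  · exact bound_of_shared hr hrp hp H hH h
  · push Not at h
    obtain ⟨S, S', h1, h2, h3, h4, h5⟩ := h
    obtain ⟨P, hP, hP'⟩ := exists_part2 hr hrp H h1 h2 h3 h4 (by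
      rintro ⟨e, he, he1, he2⟩
      exact h5 e he he1 he2)
    refine ⟨P, hP, G, hG1, hG2, ?_⟩
    have h6 : H.card ≤ n.choose r := by
      have h7 : H ⊆ (univ : Finset (Fin n)).powersetCard r := fun e he => by
        rw [mem_powersetCard]; exact ⟨subset_univ _, hH e he⟩
      simpa using card_le_card h7
    omega

theorem bound_of_m {n r p : ℕ} (hr : 2 ≤ r) (hrp : r < p) (hp : p ≤ 2 * r) {m : ℕ} (hm : 1 ≤ m)
    (hmp : m * (r - 1) < p) (hc : m * ((n + m - 1) / m).choose r + 2 ≤ 2 * p.choose r)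
    (H : Finset (Finset (Fin n))) (hH : ∀ e ∈ H, e.card = r) : Bound n r p H := by
  obtain ⟨G, hG1, hG2, hG3⟩ := ESW.exists_free n r p m hr hm hmp
  exact bound_of_free hr hrp hp hG1 hG2 (by omega) H hH

theorem bound_two {n r p : ℕ} (hr : 2 ≤ r) (hrp : r < p) (hp : p ≤ 2 * r) (hp' : 2 * r ≤ p + 1)
    (hn : n + 2 ≤ 2 * p) (H : Finset (Finset (Fin n))) (hH : ∀ e ∈ H, e.card = r) :
    Bound n r p H := by
  refine bound_of_m hr hrp hp (m := 2) (by norm_num) (by omega) ?_ H hH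
  have h1 : (n + 2 - 1) / 2 ≤ p - 1 := by omega
  have h2 : ((n + 2 - 1) / 2).choose r ≤ (p - 1).choose r := Nat.choose_le_choose r h1
  have h3 : (p - 1 + 1).choose (r - 1 + 1) = (p - 1).choose (r - 1) + (p - 1).choose (r - 1 + 1) :=
    Nat.choose_succ_succ' _ _
  have h4 : 0 < (p - 1).choose (r - 1) := Nat.choose_pos (by omega)
  have e1 : p - 1 + 1 = p := by omega
  have e2 : r - 1 + 1 = r := by omega
  rw [e1, e2] at h3
  omega

end ESU
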